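import Pool.Agent.Run7.h802.FH.Iface

/-! Project FH (helper802), piece VOL (helper212) -/

set_option autoImplicit false
set_option linter.all false

namespace Pool.Agent.Run7.h212.FH

open MeasureTheory Pool.Agent.Run7.h802.FH
open scoped Pointwise

theorem t_VOL : S_VOL := by
  intro ι _ E lam hl hl1 hE
  classical
  obtain ⟨n, hn⟩ : ∃ n, n = Fintype.card ι := ⟨_, rfl⟩
  have hlog : 0 ≤ (Fintype.card ι : ℝ) / 2 * Real.log (1 / lam) := by
    refine mul_nonneg (by positivity) (Real.log_nonneg ?_)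
    rw [le_div_iff₀ hl]
    linarith
  set c : ℝ := 1 / √lam with hc
  have hs : 0 < √lam := Real.sqrt_pos.2 hl
  have hc0 : 0 < c := by positivity
  have hc2 : c ^ 2 = 1 / lam := by
    rw [hc, div_pow, one_pow, Real.sq_sqrt hl.le]
  set U : Set (ι → ℝ) := {v | ∑ i, v i ^ 2 ≤ 1} with hU
  have hsub : {v : ι → ℝ | E v ≤ 1} ⊆ c • U := by
    intro v hv
    have h1 : ENNReal.ofReal (lam * ∑ i, v i ^ 2) ≤ 1 := (hE v).trans hv
    have h2 : lam * ∑ i, v i ^ 2 ≤ 1 := by
      rw [← ENNReal.ofReal_one] at h1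
      exact (ENNReal.ofReal_le_ofReal_iff zero_le_one).1 h1
    refine ⟨c⁻¹ • v, ?_, by show c • (c⁻¹ • v) = v; rw [smul_smul, mul_inv_cancel₀ hc0.ne', one_smul]⟩
    show ∑ i, (c⁻¹ • v) i ^ 2 ≤ 1
    have h3 : ∑ i, (c⁻¹ • v) i ^ 2 = lam * ∑ i, v i ^ 2 := by
      rw [Finset.mul_sum]
      refine Finset.sum_congr rfl fun i _ => ?_
      rw [Pi.smul_apply, smul_eq_mul, mul_pow, inv_pow, hc2, one_div, inv_inv]
    rw [h3]
    exact h2
  have hUfin : volume U < ⊤ := by
    have hsub2 : U ⊆ Metric.closedBall (0 : ι → ℝ) 1 := by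
      intro v hv
      rw [mem_closedBall_zero_iff, pi_norm_le_iff_of_nonneg zero_le_one]
      intro i
      rw [Real.norm_eq_abs, ← sq_le_one_iff_abs_le_one]
      exact (Finset.single_le_sum (f := fun i => v i ^ 2) (fun i _ => sq_nonneg _)
        (Finset.mem_univ i)).trans hv
    exact (measure_mono hsub2).trans_lt measure_closedBall_lt_top
  have hvol : volume {v : ι → ℝ | E v ≤ 1} ≤ ENNReal.ofReal (c ^ n) * volume U := by
    refine (measure_mono hsub).trans (le_of_eq ?_)
    rw [Measure.addHaar_smul, Module.finrank_fintype_fun_eq_card, ← hn, abs_of_nonneg (by positivity)]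
  have hreal : (volume {v : ι → ℝ | E v ≤ 1}).toReal ≤ c ^ n * (volume U).toReal := by
    have h1 := ENNReal.toReal_mono (ENNReal.mul_ne_top ENNReal.ofReal_ne_top hUfin.ne) hvol
    rwa [ENNReal.toReal_mul, ENNReal.toReal_ofReal (by positivity)] at h1
  rcases eq_or_lt_of_le (ENNReal.toReal_nonneg (a := volume U)) with h0 | h0
  · rw [← h0, div_zero, Real.log_zero]
    exact hlog
  have hr : (volume {v : ι → ℝ | E v ≤ 1}).toReal / (volume U).toReal ≤ c ^ n := by
    rw [div_le_iff₀ h0]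
    exact hreal
  rcases eq_or_lt_of_le (div_nonneg (ENNReal.toReal_nonneg (a := volume {v : ι → ℝ | E v ≤ 1}))
    h0.le) with h1 | h1
  · rw [← h1, Real.log_zero]
    exact hlog
  · refine (Real.log_le_log h1 hr).trans (le_of_eq ?_)
    rw [Real.log_pow, ← hn, ← hc2, Real.log_pow]
    push_cast
    ring

end Pool.Agent.Run7.h212.FH
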